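import Pool.Agent.Q113.XM.Stm

/-!
# Project XM: the clique side, structure (`t_CLS`)
-/

set_option autoImplicit false

namespace Pool.Agent.Q79.XM

open Finset Pool.Agent.W890.SF Pool.Agent.W593.IR Pool.Agent.Q54.EM Pool.Agent.Q113.XM

theorem t_CLS : S_CRF → S_NEC → S_STC → S_BRG → S_TYC → S_CLS := by
  intro hCRF hNEC hSTC hBRG hTYC k hk hL c hc e0 ξ γ he hξ hγ
  have hkR : (2 : ℝ) ≤ (k : ℝ) := by exact_mod_cast hk
  have hkpos : (0 : ℝ) < (k : ℝ) := by linarith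
  have hce : 0 < c + e0 := by have := hc.1; linarith
  obtain ⟨γ', hγ', n1, hT⟩ := hTYC k hk (c + e0) γ hce hγ
  obtain ⟨η, hη, hS⟩ := hSTC k hk hL c hc e0 (ξ / 2) γ' he (by linarith) hγ'
  have hδ : 0 < min (ξ / (2 * k)) γ' := lt_min (by positivity) hγ'
  obtain ⟨n2, hN⟩ := hNEC k hk (c + e0) η (min (ξ / (2 * k)) γ') γ' hce hη hδ hγ'
  refine ⟨max (max n1 n2) 1, ?_⟩
  intro n hn F hF s hs1 hs2 hks hM hcard
  have hn1 : n1 ≤ n := le_trans (le_trans (le_max_left _ _) (le_max_left _ _)) hn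
  have hn2 : n2 ≤ n := le_trans (le_trans (le_max_right _ _) (le_max_left _ _)) hn
  have hn3 : 1 ≤ n := le_trans (le_max_right _ _) hn
  have hnR : (0 : ℝ) < (n : ℝ) := by exact_mod_cast hn3
  obtain ⟨y, x, hy, hyx, hsx, hxs, hNG, hF1⟩ := hN n hn2 F hF s hs1 hks hM hcard
  have hcx : c + e0 ≤ x := le_of_mul_le_mul_right (le_trans hs1 hsx) hnR
  have hkδ : (k : ℝ) * min (ξ / (2 * k)) γ' ≤ ξ / 2 := by
    calc (k : ℝ) * min (ξ / (2 * k)) γ' ≤ k * (ξ / (2 * k)) :=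
          mul_le_mul_of_nonneg_left (min_le_left _ _) hkpos.le
      _ = ξ / 2 := by field_simp
  have hkx : (k : ℝ) * x ≤ 1 - ξ / 2 := by
    have h1 : ((k : ℝ) * x) * n ≤ (1 - ξ / 2) * n := by
      calc ((k : ℝ) * x) * n = k * (x * n) := by ring
        _ ≤ k * (s + min (ξ / (2 * k)) γ' * n) := mul_le_mul_of_nonneg_left hxs hkpos.le
        _ = k * s + (k * min (ξ / (2 * k)) γ') * n := by ring
        _ ≤ (1 - ξ) * n + (ξ / 2) * n := add_le_add hs2 (mul_le_mul_of_nonneg_right hkδ hnR.le)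
        _ = (1 - ξ / 2) * n := by ring
    exact le_of_mul_le_mul_right h1 hnR
  have : Nonempty (Fin n) := ⟨⟨0, hn3⟩⟩
  obtain ⟨hW, hmu, hUP⟩ := hBRG (Fin n) y hy
  have hmux : mu (fun _ : Fin n => 1 / (Fintype.card (Fin n) : ℝ)) y ≤ x := by
    rw [hmu, Fintype.card_fin, div_le_iff₀ hnR]
    exact hyx
  have hmv : mv k x = ((k : ℝ) * x) ^ k := by
    refine (hCRF k hk c hc).2.1 x (by linarith) (by linarith)
  have hU : ((k : ℝ) * x) ^ k - η ≤ UP (fun _ : Fin n => 1 / (Fintype.card (Fin n) : ℝ)) y k 1 := by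
    have h2 := hUP k 1
    rw [← hmv]
    have h3 : (mv k x - η) * (n : ℝ) ^ k ≤
        UP (fun _ : Fin n => 1 / (Fintype.card (Fin n) : ℝ)) y k 1 * (n : ℝ) ^ k := by
      have h4 : UP (fun _ : Fin n => 1 / (Fintype.card (Fin n) : ℝ)) y k 1 * (n : ℝ) ^ k
          = (NG y k : ℝ) := by
        rw [Fintype.card_fin] at h2
        rw [Fintype.card_fin]
        exact h2
      rw [h4]
      exact hNG
    exact le_of_mul_le_mul_right h3 (pow_pos hnR k)
  have hst := hS x hcx hkx (Fin n) (fun _ : Fin n => 1 / (Fintype.card (Fin n) : ℝ)) y hW hmux hU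
  have hex : (((univ.filter (fun v : Fin n => γ' < y v ∧ γ' < |y v - 1 / (k : ℝ)|)).card : ℕ) : ℝ)
      ≤ γ' * n := by
    have h5 : (∑ i : Fin n, if γ' < y i ∧ γ' < |y i - 1 / (k : ℝ)| then
        (1 / (Fintype.card (Fin n) : ℝ)) else 0) =
        (((univ.filter (fun v : Fin n => γ' < y v ∧ γ' < |y v - 1 / (k : ℝ)|)).card : ℕ) : ℝ)
          * (1 / (n : ℝ)) := by
      rw [← Finset.sum_filter, Finset.sum_const, nsmul_eq_mul, Fintype.card_fin]
    rw [h5, mul_one_div, div_le_iff₀ hnR] at hst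
    exact hst
  have hysum : ∑ v, y v ≤ s + γ' * n := by
    have h6 : min (ξ / (2 * k)) γ' * (n : ℝ) ≤ γ' * n :=
      mul_le_mul_of_nonneg_right (min_le_right _ _) hnR.le
    linarith
  exact hT n hn1 F hF s hs1 hks (le_trans (le_max_right _ _) hcard) y hy hysum hex hF1

end Pool.Agent.Q79.XM
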